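import Pool.Agent.H.MP_5155e4.B

set_option autoImplicit false
open Set Filter Topology TopologicalSpace
open scoped Cardinal

namespace Pool.Agent.Results.MP_5155e4_gt.Counter

def LindelofSigma (Z : Type) [TopologicalSpace Z] : Prop :=
  ∃ (K M : Type) (_ : TopologicalSpace K) (_ : TopologicalSpace M), CompactSpace K ∧ T2Space K ∧
    MetrizableSpace M ∧ SeparableSpace M ∧ ∃ (F : Set (K × M)) (q : F → Z), IsClosed F ∧
      Continuous q ∧ q.Surjective

theorem result : ∃ (X : Type) (_ : TopologicalSpace X), T35Space X ∧ FirstCountableTopology X ∧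
    (∀ x : X, IsGδ {x}) ∧ LindelofSigma {f : X → ℝ // Continuous f} ∧ Cardinal.continuum < #X := by
  obtain ⟨d⟩ : Nonempty (Set (Set ℕ) ≃ Finset (Set (Set ℕ) × ℕ) × (ℕ → Finset (Set (Set ℕ) × ℕ))) := by
    have e : (2 : Cardinal.{0}) ^ Cardinal.continuum * ℵ₀ = 2 ^ Cardinal.continuum :=
      Cardinal.mul_aleph0_eq (Cardinal.aleph0_le_continuum.trans (Cardinal.cantor _).le)
    rw [← Cardinal.eq]
    simp [e, ← Cardinal.power_mul, ← Cardinal.power_add]
  have hd := d.surjective
  have : FirstCountableTopology (H.MP_5155e4.X d) := ⟨fun x =>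
    let ⟨_, e⟩ := x.2.2
    isCountablyGenerated_iff_exists_antitone_basis.2 ⟨_, H.MP_5155e4.nh e⟩⟩
  obtain ⟨q, q1, q2⟩ := H.MP_5155e4.onto hd
  obtain ⟨g, hg⟩ := H.MP_5155e4.big hd
  exact ⟨H.MP_5155e4.X d, inferInstance, inferInstance, this, fun x => .singleton x,
    ⟨_, _, inferInstance, inferInstance, inferInstance, inferInstance, inferInstance, inferInstance,
      _, q, H.MP_5155e4.clW, q1, q2⟩, lt_of_lt_of_le (by simpa using Cardinal.cantor _)
        (Cardinal.mk_le_of_injective hg)⟩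

end Pool.Agent.Results.MP_5155e4_gt.Counter
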